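import Mathlib

set_option autoImplicit false

namespace Pool.Agent.Results.MP_6750b5_co.NotNested

open Finset

/-- the multinomial coefficient `k! / (m_1! ... m_n!)` of a tuple -/
noncomputable def mult {n k : ℕ} (i : Fin k → Fin n) : ℝ :=
  (k.factorial : ℝ) / ∏ l : Fin n, (((univ.filter fun s => i s = l).card).factorial : ℝ)

/-- the set of all rearrangements of a tuple -/
def orb {n k : ℕ} (i : Fin k → Fin n) : Finset (Fin k → Fin n) :=
  univ.filter fun p => ∃ σ : Equiv.Perm (Fin k), p = i ∘ σ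

/-- the edge weights of the `k`-th symmetric tensor power of the graph with `0/1` weight `ω` -/
noncomputable def wt {n k : ℕ} (ω : Fin n → Fin n → ℝ) (i j : Fin k → Fin n) : ℝ :=
  (mult i * mult j) ^ (-(1 / 2 : ℝ)) * ∑ p ∈ orb i, ∑ q ∈ orb j, ∏ l : Fin k, ω (p l) (q l)

/-- the weight function of the graph `K_2` (one edge, no loops) -/
def edge : Fin 2 → Fin 2 → ℝ := fun a b => if a = b then 0 else 1

theorem mult_pos {n k : ℕ} (i : Fin k → Fin n) : 0 < mult i := by
  unfold mult
  positivity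

theorem noloop (i : Fin 3 → Fin 2) : wt edge i i = 0 := by
  unfold wt
  have key : ∀ i : Fin 3 → Fin 2, ∀ p ∈ orb i, ∀ q ∈ orb i, ∃ l, p l = q l := by decide
  rw [Finset.sum_eq_zero, mul_zero]
  intro p hp
  apply Finset.sum_eq_zero
  intro q hq
  obtain ⟨l, hl⟩ := key i p hp q hq
  exact Finset.prod_eq_zero (mem_univ l) (by simp [edge, hl])

theorem loop : 0 < wt edge (![0, 1] : Fin 2 → Fin 2) ![0, 1] := by
  unfold wt
  apply mul_pos (Real.rpow_pos_of_pos (mul_pos (mult_pos _) (mult_pos _)) _)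
  have hnn : ∀ p q : Fin 2 → Fin 2, 0 ≤ ∏ l : Fin 2, edge (p l) (q l) := by
    intro p q
    apply Finset.prod_nonneg
    intro l _
    unfold edge
    split_ifs <;> norm_num
  apply Finset.sum_pos'
  · intro p _
    exact Finset.sum_nonneg fun q _ => hnn p q
  · refine ⟨![0, 1], by decide, ?_⟩
    apply Finset.sum_pos'
    · intro q _
      exact hnn _ q
    · refine ⟨![1, 0], by decide, ?_⟩
      simp [edge]

/-- For the graph `K_2`, the second symmetric tensor power is not a weighted subgraph of the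
third one. -/
theorem result :
    ¬ ∀ (n : ℕ) (ω : Fin n → Fin n → ℝ), (∀ a b, ω a b = ω b a) → (∀ a b, ω a b = 0 ∨ ω a b = 1) →
      ∀ k r : ℕ, 1 ≤ k → k ≤ r →
        ∃ φ : {i : Fin k → Fin n // Monotone i} → {i : Fin r → Fin n // Monotone i},
          Function.Injective φ ∧ ∀ i j, wt ω i.1 j.1 ≤ wt ω (φ i).1 (φ j).1 := by
  intro h
  obtain ⟨φ, -, hφ⟩ := h 2 edge (by intro a b; simp [edge, eq_comm])
    (by intro a b; unfold edge; split_ifs <;> simp) 2 3 (by norm_num) (by norm_num)
  have hm : Monotone (![0, 1] : Fin 2 → Fin 2) := by decide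
  have := hφ ⟨_, hm⟩ ⟨_, hm⟩
  rw [noloop] at this
  exact absurd loop (not_lt.mpr this)

end Pool.Agent.Results.MP_6750b5_co.NotNested
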